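import Pool.Agent.H59.L.S8.W695.KH.Defs
import Pool.Agent.H59.L.S8.H212R2.KLS.T1

/-! MARG: the marginal of a convex body. -/

set_option autoImplicit false

namespace Pool.Agent.W108.KH

open MeasureTheory Set Filter Topology
open scoped ENNReal InnerProductSpace Pointwise
open Pool.Agent.W695.KH

theorem mp_slice {κ : Type} [Fintype κ] (a : Eu κ) (ha : ‖a‖ = 1) :
    MeasurePreserving (fun p : ℝ × (Submodule.span ℝ {a})ᗮ => p.1 • a + (p.2 : Eu κ))
      ((volume : Measure ℝ).prod volume) volume := by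
  have h1 : MeasurePreserving (LinearIsometryEquiv.toSpanUnitSingleton (𝕜 := ℝ) a ha)
      (volume : Measure ℝ) (volume : Measure (Submodule.span ℝ {a})) :=
    LinearIsometryEquiv.measurePreserving _
  have h2 := h1.prod (MeasurePreserving.id (volume : Measure (Submodule.span ℝ {a})ᗮ))
  have h3 := WithLp.volume_preserving_toLp (Submodule.span ℝ {a}) (Submodule.span ℝ {a})ᗮ
  have h4 := (Submodule.span ℝ {a}).orthogonalDecomposition.symm.measurePreserving
  have h5 := h4.comp (h3.comp h2)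
  have h6 : (fun p : ℝ × (Submodule.span ℝ {a})ᗮ => p.1 • a + (p.2 : Eu κ)) =
      (Submodule.span ℝ {a}).orthogonalDecomposition.symm ∘ (WithLp.toLp 2) ∘
        (Prod.map (LinearIsometryEquiv.toSpanUnitSingleton (𝕜 := ℝ) a ha) id) := by
    funext p
    simp [Submodule.orthogonalDecomposition_symm_apply]
  rw [h6]
  exact h5

section
variable {κ : Type} [Fintype κ]

/-- the section at height `r` -/
def Sc (Ω : Set (Eu κ)) (a : Eu κ) (r : ℝ) : Set (Submodule.span ℝ {a})ᗮ :=
  {y | r • a + (y : Eu κ) ∈ Ω}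

theorem sc_open {Ω : Set (Eu κ)} (hΩ : IsOpen Ω) (a : Eu κ) (r : ℝ) : IsOpen (Sc Ω a r) :=
  hΩ.preimage (by fun_prop)

theorem inner_slice (a : Eu κ) (ha : ‖a‖ = 1) (r : ℝ) (y : (Submodule.span ℝ {a})ᗮ) :
    ⟪a, r • a + (y : Eu κ)⟫_ℝ = r := by
  have h1 : ⟪a, (y : Eu κ)⟫_ℝ = 0 :=
    (Submodule.mem_orthogonal _ _).1 y.2 a (Submodule.mem_span_singleton_self a)
  rw [inner_add_right, h1, inner_smul_right, real_inner_self_eq_norm_sq, ha]
  ring

theorem abs_le_slice (a : Eu κ) (ha : ‖a‖ = 1) (r : ℝ) (y : (Submodule.span ℝ {a})ᗮ) :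
    |r| ≤ ‖r • a + (y : Eu κ)‖ := by
  have h1 := abs_real_inner_le_norm a (r • a + (y : Eu κ))
  rwa [inner_slice a ha, ha, one_mul] at h1

theorem sc_lt_top {Ω : Set (Eu κ)} (hb : Bornology.IsBounded Ω) (a : Eu κ) (ha : ‖a‖ = 1)
    (r : ℝ) : volume (Sc Ω a r) < ⊤ := by
  obtain ⟨R, hR⟩ := hb.subset_closedBall 0
  refine lt_of_le_of_lt (measure_mono (t := Metric.closedBall 0 (R + |r|)) ?_)
    measure_closedBall_lt_top
  intro y hy
  have h1 : ‖r • a + (y : Eu κ)‖ ≤ R := by
    have := hR hy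
    rwa [mem_closedBall_zero_iff] at this
  rw [mem_closedBall_zero_iff]
  have h2 : ‖(y : Eu κ)‖ ≤ ‖r • a + (y : Eu κ)‖ + ‖r • a‖ := by
    calc ‖(y : Eu κ)‖ = ‖(r • a + (y : Eu κ)) - r • a‖ := by congr 1; abel
      _ ≤ _ := norm_sub_le _ _
  rw [norm_smul, ha, mul_one, Real.norm_eq_abs] at h2
  calc ‖y‖ = ‖(y : Eu κ)‖ := rfl
    _ ≤ _ := by linarith

theorem sc_neg {Ω : Set (Eu κ)} (hs : ∀ x ∈ Ω, -x ∈ Ω) (a : Eu κ) (r : ℝ) :
    volume (Sc Ω a (-r)) = volume (Sc Ω a r) := by
  have h1 : Sc Ω a (-r) = Neg.neg ⁻¹' (Sc Ω a r) := by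
    ext y
    simp only [Sc, mem_preimage, Set.mem_ofPred_eq, Submodule.coe_neg]
    constructor
    · intro h
      have := hs _ h
      convert this using 1
      rw [neg_smul]
      abel
    · intro h
      have := hs _ h
      convert this using 1
      rw [neg_smul]
      abel
  rw [h1]
  exact Measure.measure_preimage_neg _ _

theorem sc_pl {Ω : Set (Eu κ)} (hΩ : IsOpen Ω) (hc : Convex ℝ Ω) (a : Eu κ) (x y t : ℝ)
    (ht0 : 0 < t) (ht1 : t < 1) :
    volume (Sc Ω a x) ^ (1 - t) * volume (Sc Ω a y) ^ t ≤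
      volume (Sc Ω a ((1 - t) * x + t * y)) := by
  have hm : ∀ r, MeasurableSet (Sc Ω a r) := fun r => (sc_open hΩ a r).measurableSet
  have h := Pool.Agent.H212R2.KLS.PL (volume : Measure (Submodule.span ℝ {a})ᗮ) t ht0 ht1
    ((Sc Ω a x).indicator 1) ((Sc Ω a y).indicator 1)
    ((Sc Ω a ((1 - t) * x + t * y)).indicator 1)
    (measurable_one.indicator (hm _)) (measurable_one.indicator (hm _))
    (measurable_one.indicator (hm _)) ?_
  · rwa [lintegral_indicator_one (hm _), lintegral_indicator_one (hm _),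
      lintegral_indicator_one (hm _)] at h
  · intro u v
    by_cases hu : u ∈ Sc Ω a x
    · by_cases hv : v ∈ Sc Ω a y
      · have h3 : (1 - t) • u + t • v ∈ Sc Ω a ((1 - t) * x + t * y) := by
          have h4 := hc hu hv (by linarith : (0 : ℝ) ≤ 1 - t) ht0.le (by ring)
          simp only [Sc, Set.mem_ofPred_eq, Submodule.coe_add, Submodule.coe_smul]
          convert h4 using 1
          module
        rw [Set.indicator_of_mem hu, Set.indicator_of_mem hv, Set.indicator_of_mem h3]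
        simp
      · rw [Set.indicator_of_notMem hv, ENNReal.zero_rpow_of_pos ht0, mul_zero]
        exact zero_le
    · rw [Set.indicator_of_notMem hu, ENNReal.zero_rpow_of_pos (by linarith : (0 : ℝ) < 1 - t),
        zero_mul]
      exact zero_le

end

theorem t_marg : S_marg := by
  intro κ _ Ω hΩ hc hb h0 hs a ha
  have hfin : ∀ r, volume (Sc Ω a r) ≠ ⊤ := fun r => (sc_lt_top hb a ha r).ne
  have hsec : sec Ω a = volume (Sc Ω a 0) := by
    simp only [sec, Sc, zero_smul, zero_add]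
  have hSo : IsOpen {p : ℝ × (Submodule.span ℝ {a})ᗮ | p.1 • a + (p.2 : Eu κ) ∈ Ω} :=
    hΩ.preimage (by fun_prop)
  have hmeas : Measurable fun r => volume (Sc Ω a r) :=
    measurable_measure_prodMk_left (ν := (volume : Measure (Submodule.span ℝ {a})ᗮ))
      hSo.measurableSet
  refine ⟨hsec ▸ hfin 0, fun r => (volume (Sc Ω a r)).toReal, hmeas.ennreal_toReal,
    fun r => ENNReal.toReal_nonneg, fun r => ?_, fun x y t ht0 ht1 => ?_, ?_, ?_, ?_⟩
  · simp only [sc_neg hs a r]
  · have h1 := ENNReal.toReal_mono (hfin _) (sc_pl hΩ hc a x y t ht0 ht1)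
    rwa [ENNReal.toReal_mul, ← ENNReal.toReal_rpow, ← ENNReal.toReal_rpow] at h1
  · obtain ⟨R, hR⟩ := hb.subset_closedBall 0
    refine ⟨R, fun r hr => ?_⟩
    have h1 : Sc Ω a r = ∅ := by
      rw [Set.eq_empty_iff_forall_notMem]
      intro y hy
      have h2 : ‖r • a + (y : Eu κ)‖ ≤ R := by
        have := hR hy
        rwa [mem_closedBall_zero_iff] at this
      have h3 := abs_le_slice a ha r y
      linarith
    simp [h1]
  · rw [hsec]
  · intro g hg
    have h1 : ∫⁻ x in Ω, g ⟪a, x⟫_ℝ = ∫⁻ x, Ω.indicator (fun x => g ⟪a, x⟫_ℝ) x := by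
      rw [lintegral_indicator hΩ.measurableSet]
    have hgm : Measurable (Ω.indicator fun x : Eu κ => g ⟪a, x⟫_ℝ) :=
      (hg.comp (by fun_prop : Measurable fun x : Eu κ => ⟪a, x⟫_ℝ)).indicator hΩ.measurableSet
    have hgm2 : AEMeasurable (fun p : ℝ × (Submodule.span ℝ {a})ᗮ =>
        Ω.indicator (fun x => g ⟪a, x⟫_ℝ) (p.1 • a + (p.2 : Eu κ)))
        ((volume : Measure ℝ).prod volume) :=
      (hgm.comp (mp_slice a ha).measurable).aemeasurable
    rw [h1, ← (mp_slice a ha).lintegral_comp hgm, lintegral_prod _ hgm2]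
    refine lintegral_congr fun r => ?_
    rw [ENNReal.ofReal_toReal (hfin r)]
    have h2 : ∀ y : (Submodule.span ℝ {a})ᗮ,
        Ω.indicator (fun x => g ⟪a, x⟫_ℝ) (r • a + (y : Eu κ)) =
          (Sc Ω a r).indicator (fun _ => g r) y := by
      intro y
      by_cases hy : y ∈ Sc Ω a r
      · have hy' : r • a + (y : Eu κ) ∈ Ω := hy
        rw [Set.indicator_of_mem hy, Set.indicator_of_mem hy', inner_slice a ha]
      · have hy' : r • a + (y : Eu κ) ∉ Ω := hy
        rw [Set.indicator_of_notMem hy, Set.indicator_of_notMem hy']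
    simp only [h2]
    rw [lintegral_indicator (sc_open hΩ a r).measurableSet, setLIntegral_const]

end Pool.Agent.W108.KH
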